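import Pool.Agent.Sok.B2D.CUL
import Pool.Agent.Sok.B2D.CUR
import Pool.Agent.Sok.B2D.CLL
import Pool.Agent.Sok.B2D.CLR

/-! Denominator two near the turning point: the whole disc. -/

set_option autoImplicit false

namespace Pool.Agent.Sok

theorem ccAll : Cv GC ⟨bK, one, 0, one, 0, 0⟩ := GD.fin (GD.sx (GD.sy ccLL ccUL) (GD.sy ccLR ccUR))

end Pool.Agent.Sok
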