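import Pool.Agent.Sok.B2D.R0
import Pool.Agent.Sok.B2D.R1
import Pool.Agent.Sok.B2D.R2
import Pool.Agent.Sok.B2D.R3
import Pool.Agent.Sok.B2D.R4
import Pool.Agent.Sok.B2D.R5

/-! The covers. -/

namespace Pool.Agent.Sok

theorem b2r0 (h : ClsOk clsB 0 920) : Cv (GR 0) ⟨439804231680, 1099511627776, 0, 659707396096, -1099511627776, 1099511627776⟩ :=
 (Cv.s0 (Cv.s0 (kd_ok (rLf_ok h 0) b2r0_0)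
 (Cv.s0 (Cv.s2 (kd_ok (rLf_ok h 0) b2r0_1)
 (kd_ok (rLf_ok h 0) b2r0_2))
 (Cv.s2 (Cv.s1 (kd_ok (rLf_ok h 0) b2r0_3)
 (Cv.s2 (kd_ok (rLf_ok h 0) b2r0_4)
 (kd_ok (rLf_ok h 0) b2r0_5)))
 (kd_ok (rLf_ok h 0) b2r0_6))))
 (Cv.s0 (Cv.s2 (Cv.s1 (kd_ok (rLf_ok h 0) b2r0_7)
 (Cv.s2 (Cv.s1 (kd_ok (rLf_ok h 0) b2r0_8)
 (kd_ok (rLf_ok h 0) b2r0_9))
 (kd_ok (rLf_ok h 0) b2r0_10)))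
 (kd_ok (rLf_ok h 0) b2r0_11))
 (Cv.s0 (Cv.s2 (Cv.s1 (kd_ok (rLf_ok h 0) b2r0_12)
 (Cv.s2 (Cv.s1 (kd_ok (rLf_ok h 0) b2r0_13)
 (kd_ok (rLf_ok h 0) b2r0_14))
 (kd_ok (rLf_ok h 0) b2r0_15)))
 (Cv.s1 (kd_ok (rLf_ok h 0) b2r0_16)
 (kd_ok (rLf_ok h 0) b2r0_17)))
 (Cv.s2 (Cv.s1 (kd_ok (rLf_ok h 0) b2r0_18)
 (Cv.s2 (Cv.s1 (Cv.s2 (kd_ok (rLf_ok h 0) b2r0_19)
 (Cv.s1 (kd_ok (rLf_ok h 0) b2r0_20)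
 (kd_ok (rLf_ok h 0) b2r0_21)))
 (kd_ok (rLf_ok h 0) b2r0_22))
 (kd_ok (rLf_ok h 0) b2r0_23)))
 (Cv.s1 (kd_ok (rLf_ok h 0) b2r0_24)
 (Cv.s2 (kd_ok (rLf_ok h 0) b2r0_25)
 (kd_ok (rLf_ok h 0) b2r0_26)))))))

theorem b2r1 (h : ClsOk clsB 0 920) : Cv (GR 1) ⟨439804231680, 1099511627776, 0, 659707396096, -1099511627776, 1099511627776⟩ :=
 (Cv.s0 (Cv.s0 (kd_ok (rLf_ok h 1) b2r1_0)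
 (Cv.s0 (kd_ok (rLf_ok h 1) b2r1_1)
 (Cv.s2 (kd_ok (rLf_ok h 1) b2r1_2)
 (kd_ok (rLf_ok h 1) b2r1_3))))
 (Cv.s0 (Cv.s2 (kd_ok (rLf_ok h 1) b2r1_4)
 (kd_ok (rLf_ok h 1) b2r1_5))
 (Cv.s0 (Cv.s2 (Cv.s1 (kd_ok (rLf_ok h 1) b2r1_6)
 (kd_ok (rLf_ok h 1) b2r1_7))
 (kd_ok (rLf_ok h 1) b2r1_8))
 (Cv.s2 (Cv.s1 (kd_ok (rLf_ok h 1) b2r1_9)
 (Cv.s2 (Cv.s1 (kd_ok (rLf_ok h 1) b2r1_10)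
 (kd_ok (rLf_ok h 1) b2r1_11))
 (kd_ok (rLf_ok h 1) b2r1_12)))
 (kd_ok (rLf_ok h 1) b2r1_13)))))

theorem b2r2 (h : ClsOk clsB 0 920) : Cv (GR 2) ⟨439804231680, 1099511627776, 0, 659707396096, -1099511627776, 1099511627776⟩ :=
 (Cv.s0 (Cv.s0 (kd_ok (rLf_ok h 2) b2r2_0)
 (Cv.s0 (kd_ok (rLf_ok h 2) b2r2_1)
 (kd_ok (rLf_ok h 2) b2r2_2)))
 (Cv.s0 (Cv.s2 (kd_ok (rLf_ok h 2) b2r2_3)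
 (kd_ok (rLf_ok h 2) b2r2_4))
 (Cv.s0 (Cv.s2 (kd_ok (rLf_ok h 2) b2r2_5)
 (kd_ok (rLf_ok h 2) b2r2_6))
 (Cv.s2 (kd_ok (rLf_ok h 2) b2r2_7)
 (kd_ok (rLf_ok h 2) b2r2_8)))))

theorem b2r3 (h : ClsOk clsB 0 920) : Cv (GR 3) ⟨439804231680, 1099511627776, 0, 659707396096, -1099511627776, 1099511627776⟩ :=
 (Cv.s0 (Cv.s0 (kd_ok (rLf_ok h 3) b2r3_0)
 (Cv.s0 (kd_ok (rLf_ok h 3) b2r3_1)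
 (kd_ok (rLf_ok h 3) b2r3_2)))
 (Cv.s0 (kd_ok (rLf_ok h 3) b2r3_3)
 (Cv.s0 (Cv.s2 (kd_ok (rLf_ok h 3) b2r3_4)
 (kd_ok (rLf_ok h 3) b2r3_5))
 (Cv.s2 (kd_ok (rLf_ok h 3) b2r3_6)
 (kd_ok (rLf_ok h 3) b2r3_7)))))

theorem b2t (h : ClsOk clsB 0 920) : Cv GU ⟨439804231680, 1099511627776, -285873274880, 494781071360, 307862962176, 714682138624⟩ :=
 (Cv.s0 (Cv.s0 (Cv.s1 (Cv.s2 (kd_ok (tLf_ok h) b2t_0)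
 (kd_ok (tLf_ok h) b2t_1))
 (kd_ok (tLf_ok h) b2t_2))
 (Cv.s0 (Cv.s1 (Cv.s2 (kd_ok (tLf_ok h) b2t_3)
 (kd_ok (tLf_ok h) b2t_4))
 (kd_ok (tLf_ok h) b2t_5))
 (Cv.s2 (kd_ok (tLf_ok h) b2t_6)
 (kd_ok (tLf_ok h) b2t_7))))
 (Cv.s0 (Cv.s2 (kd_ok (tLf_ok h) b2t_8)
 (kd_ok (tLf_ok h) b2t_9))
 (Cv.s0 (Cv.s2 (kd_ok (tLf_ok h) b2t_10)
 (kd_ok (tLf_ok h) b2t_11))
 (Cv.s2 (kd_ok (tLf_ok h) b2t_12)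
 (kd_ok (tLf_ok h) b2t_13)))))

theorem b2d (h : ClsOk clsB 0 920) : Cv GW ⟨439804231680, 1099511627776, -285873274880, 494781071360, -2748779069440, -307862962176⟩ :=
 (Cv.s0 (Cv.s0 (Cv.s1 (Cv.s2 (Cv.s2 (kd_ok (wLf_ok h) b2d_0)
 (kd_ok (wLf_ok h) b2d_1))
 (kd_ok (wLf_ok h) b2d_2))
 (kd_ok (wLf_ok h) b2d_3))
 (Cv.s0 (Cv.s1 (Cv.s2 (Cv.s2 (kd_ok (wLf_ok h) b2d_4)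
 (kd_ok (wLf_ok h) b2d_5))
 (kd_ok (wLf_ok h) b2d_6))
 (kd_ok (wLf_ok h) b2d_7))
 (Cv.s2 (Cv.s2 (kd_ok (wLf_ok h) b2d_8)
 (Cv.s2 (kd_ok (wLf_ok h) b2d_9)
 (Cv.s1 (kd_ok (wLf_ok h) b2d_10)
 (kd_ok (wLf_ok h) b2d_11))))
 (kd_ok (wLf_ok h) b2d_12))))
 (Cv.s0 (Cv.s2 (Cv.s2 (kd_ok (wLf_ok h) b2d_13)
 (Cv.s2 (kd_ok (wLf_ok h) b2d_14)
 (Cv.s1 (kd_ok (wLf_ok h) b2d_15)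
 (Cv.s2 (kd_ok (wLf_ok h) b2d_16)
 (kd_ok (wLf_ok h) b2d_17)))))
 (kd_ok (wLf_ok h) b2d_18))
 (Cv.s0 (Cv.s2 (Cv.s2 (kd_ok (wLf_ok h) b2d_19)
 (Cv.s2 (kd_ok (wLf_ok h) b2d_20)
 (kd_ok (wLf_ok h) b2d_21)))
 (kd_ok (wLf_ok h) b2d_22))
 (Cv.s2 (Cv.s2 (kd_ok (wLf_ok h) b2d_23)
 (kd_ok (wLf_ok h) b2d_24))
 (kd_ok (wLf_ok h) b2d_25)))))

theorem b2b (h : ClsOk clsB 0 920) : Cv GB ⟨439804231680, 1099511627776, -285873274880, 494781071360, -824633720832, 714682138624⟩ :=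
 (Cv.s0 (Cv.s0 (Cv.s1 (Cv.s2 (kd_ok (bLf_ok h) b2b_0)
 (Cv.s2 (kd_ok (bLf_ok h) b2b_1)
 (Cv.s1 (kd_ok (bLf_ok h) b2b_2)
 (kd_ok (bLf_ok h) b2b_3))))
 (kd_ok (bLf_ok h) b2b_4))
 (Cv.s0 (Cv.s1 (Cv.s2 (kd_ok (bLf_ok h) b2b_5)
 (Cv.s2 (kd_ok (bLf_ok h) b2b_6)
 (kd_ok (bLf_ok h) b2b_7)))
 (kd_ok (bLf_ok h) b2b_8))
 (Cv.s2 (kd_ok (bLf_ok h) b2b_9)
 (Cv.s2 (Cv.s1 (kd_ok (bLf_ok h) b2b_10)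
 (kd_ok (bLf_ok h) b2b_11))
 (kd_ok (bLf_ok h) b2b_12)))))
 (Cv.s0 (Cv.s2 (kd_ok (bLf_ok h) b2b_13)
 (Cv.s2 (kd_ok (bLf_ok h) b2b_14)
 (kd_ok (bLf_ok h) b2b_15)))
 (Cv.s0 (Cv.s2 (kd_ok (bLf_ok h) b2b_16)
 (Cv.s2 (kd_ok (bLf_ok h) b2b_17)
 (kd_ok (bLf_ok h) b2b_18)))
 (Cv.s2 (kd_ok (bLf_ok h) b2b_19)
 (Cv.s2 (kd_ok (bLf_ok h) b2b_20)
 (kd_ok (bLf_ok h) b2b_21))))))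

end Pool.Agent.Sok
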